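import Pool.Agent.W845.PM.Base

set_option autoImplicit false
open scoped Classical
open Filter Topology MeasureTheory ProbabilityTheory
open scoped ENNReal NNReal BigOperators

namespace Pool.Agent.W74.PM

open Pool.Agent.W845.PM

noncomputable section

theorem jc_mem {c : ℝ} (hc : 0 ≤ c) (k : ℕ) : 0 ≤ jc c k ∧ jc c k ≤ 1 := by
  induction k with
  | zero => simp [jc]
  | succ k ih =>
    refine ⟨(Real.exp_pos _).le, ?_⟩
    have h : 0 ≤ c * jc c k := mul_nonneg hc ih.1
    have := Real.exp_le_one_iff.2 (neg_nonpos.2 h)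
    exact this

theorem lb : S_JCONV → S_BDET → S_BD2 → S_BBD → S_ONE → S_LB := by
  intro hJ hBD hD2 hBB hone c k η hc hη p hp
  have hp01 := hp.1
  obtain ⟨hi0, hi1⟩ := jc_mem hc.le (2 * k)
  have hJ1 := hJ c (2 * k) hc.le
  have hA : Tendsto (fun n : ℕ => EG n (p n) (fun G => ((LI (2 * k) G).card : ℝ) / n)) atTop
      (𝓝 (jc c (2 * k))) := by
    rw [tendsto_iff_dist_tendsto_zero]
    refine squeeze_zero (fun n => dist_nonneg) (fun n => ?_) (hJ1 p hp)
    rw [Real.dist_eq]
    have e : EG n (p n) (fun G => ((LI (2 * k) G).card : ℝ) / n) - jc c (2 * k) =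
        EG n (p n) (fun G => (∑ v, if J (2 * k) G v then (1 : ℝ) else 0) / n - jc c (2 * k)) := by
      rw [EG_sub, EG_const hone]
      congr 1
      refine EG_congr fun G => ?_
      rw [LI, Finset.card_filter]
      push_cast
      rfl
    rw [e]
    exact EG_abs_le (hp01 n).1 (hp01 n).2 _
  have hD := hD2 c (2 * k) (jc c (2 * k)) hc.le hi0 hi1 hJ1 p hp
  have hB := hBB c (2 * k + 1) hc.le p hp
  have hT := (hA.sub hD).sub (hB.const_mul 2)
  have e1 : jc c (2 * k) - (1 - (1 + c * jc c (2 * k)) * Real.exp (-(c * jc c (2 * k)))) - 2 * 0 =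
      val c (jc c (2 * k)) - 1 := by
    unfold val; ring
  rw [e1] at hT
  have hev := hT.eventually (lt_mem_nhds (show val c (jc c (2 * k)) - 1 - η <
    val c (jc c (2 * k)) - 1 by linarith))
  refine hev.mono fun n hn => hn.le.trans ?_
  have h1 : EG n (p n) (fun G => ((LI (2 * k) G).card : ℝ) - (LD (2 * k) G).card -
      2 * (LB (2 * k + 1) G).card) ≤ EG n (p n) dfc :=
    EG_mono (hp01 n).1 (hp01 n).2 fun G => hBD (Fin n) G k
  have h2 := div_le_div_of_nonneg_right h1 (Nat.cast_nonneg (α := ℝ) n)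
  refine le_trans (le_of_eq ?_) h2
  rw [EG_div, EG_div, EG_div, EG_sub, EG_sub, EG_mul_left]
  ring

end

end Pool.Agent.W74.PM
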